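import Pool.Agent.Q18.KZ.S4
import Pool.Agent.H503R2.PalS4

/-!
# Project KZ, lemma CHE: Mertens for a short exponent range
-/

set_option autoImplicit false

namespace Pool.Agent.Q151.KZ

open Finset Filter Topology
open Pool.Agent.Q18.KZ

/-- **KZ-CHE** -/
theorem t_CHE : S_CHE := by
  intro et het
  obtain ⟨e, he⟩ : ∃ e : ℝ, e = min et (1 / 2) := ⟨_, rfl⟩
  have he0 : 0 < e := by rw [he]; exact lt_min het (by norm_num)
  have he1 : e ≤ et := by rw [he]; exact min_le_left _ _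
  have he2 : e ≤ 1 / 2 := by rw [he]; exact min_le_right _ _
  obtain ⟨a, ha⟩ : ∃ a : ℝ, a = 5 / 13 + e / 2 := ⟨_, rfl⟩
  obtain ⟨b, hb⟩ : ∃ b : ℝ, b = 5 / 13 + e := ⟨_, rfl⟩
  have ha0 : 0 < a := by rw [ha]; positivity
  have hab : a < b := by rw [ha, hb]; linarith
  obtain ⟨L, hL⟩ : ∃ L : ℝ, L = Real.log (b / a) := ⟨_, rfl⟩
  have hL0 : 0 < L := by
    rw [hL]
    exact Real.log_pos ((one_lt_div ha0).2 hab)
  obtain ⟨τ, hτ⟩ : ∃ τ : ℝ, τ = 2 * (b - a) / L := ⟨_, rfl⟩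
  have hba : 0 < b - a := sub_pos.2 hab
  have hτ0 : 0 < τ := by rw [hτ]; positivity
  have hlim := Pool.Agent.H503R2.PalS4.mertens_int a b τ ha0 hab hτ0
  have hval : Real.log (b / a) - (b - a) / τ = L / 2 := by
    rw [← hL, hτ]
    field_simp
    ring
  rw [hval] at hlim
  have h2 : Tendsto (fun i : ℕ => (2 : ℝ) ^ i) atTop atTop :=
    tendsto_pow_atTop_atTop_of_one_lt one_lt_two
  obtain ⟨J, hJ⟩ := eventually_atTop.1 ((hlim.comp h2).eventually (lt_mem_nhds
    (show L / 4 < L / 2 by linarith)))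
  refine ⟨L / 4, by positivity, max J 1, fun i hi => ?_⟩
  have h3 := hJ i (le_trans (le_max_left _ _) hi)
  have hi1 : 1 ≤ i := le_trans (le_max_right _ _) hi
  have hir : (1 : ℝ) ≤ i := by exact_mod_cast hi1
  refine h3.le.trans ?_
  show ∑ p ∈ (range ⌈((2 : ℝ) ^ i) ^ b⌉₊).filter (fun p : ℕ => p.Prime ∧ ¬ p ∣ 10 ∧ ((2 : ℝ) ^ i) ^ a ≤ p),
      (1 - Real.log p / (τ * Real.log ((2 : ℝ) ^ i))) / p ≤ _
  have hpow : ∀ x : ℝ, ((2 : ℝ) ^ i) ^ x = (2 : ℝ) ^ (x * (i : ℝ)) := by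
    intro x
    rw [← Real.rpow_natCast 2 i, ← Real.rpow_mul (by norm_num), mul_comm]
  have hlog : 0 ≤ Real.log ((2 : ℝ) ^ i) := Real.log_nonneg (one_le_pow₀ (by norm_num))
  calc ∑ p ∈ (range ⌈((2 : ℝ) ^ i) ^ b⌉₊).filter (fun p : ℕ => p.Prime ∧ ¬ p ∣ 10 ∧ ((2 : ℝ) ^ i) ^ a ≤ p),
      (1 - Real.log p / (τ * Real.log ((2 : ℝ) ^ i))) / p
      ≤ ∑ p ∈ (range ⌈((2 : ℝ) ^ i) ^ b⌉₊).filter (fun p : ℕ => p.Prime ∧ ¬ p ∣ 10 ∧ ((2 : ℝ) ^ i) ^ a ≤ p),
        1 / (p : ℝ) := by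
        refine Finset.sum_le_sum fun p hp => ?_
        have hpp : p.Prime := (Finset.mem_filter.1 hp).2.1
        have hp0 : (0 : ℝ) < p := by exact_mod_cast hpp.pos
        refine (div_le_div_iff_of_pos_right hp0).2 ?_
        have h5 : 0 ≤ Real.log p / (τ * Real.log ((2 : ℝ) ^ i)) :=
          div_nonneg (Real.log_nonneg (by exact_mod_cast hpp.one_le)) (mul_nonneg hτ0.le hlog)
        linarith
    _ ≤ _ := by
        refine Finset.sum_le_sum_of_subset_of_nonneg ?_ (fun p _ _ => by positivity)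
        intro p hp
        obtain ⟨hpr, hpp, _, hpa⟩ := Finset.mem_filter.1 hp
        rw [Finset.mem_range, Nat.lt_ceil, hpow] at hpr
        rw [hpow] at hpa
        refine Finset.mem_filter.2 ⟨Finset.mem_range.2 ?_, hpp, ?_, ?_⟩
        · have h6 : (p : ℝ) < (2 : ℝ) ^ i := by
            refine hpr.trans_le ?_
            rw [← Real.rpow_natCast 2 i]
            refine Real.rpow_le_rpow_of_exponent_le (by norm_num) ?_
            have : b ≤ 1 := by rw [hb]; linarith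
            nlinarith
          have h7 : p < 2 ^ i := by exact_mod_cast h6
          omega
        · refine lt_of_lt_of_le ?_ hpa
          refine Real.rpow_lt_rpow_of_exponent_lt (by norm_num) ?_
          rw [ha]
          nlinarith
        · refine hpr.le.trans ?_
          refine Real.rpow_le_rpow_of_exponent_le (by norm_num) ?_
          rw [hb]
          nlinarith

end Pool.Agent.Q151.KZ
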