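import Pool.Agent.Q151.KZ.PAIR

/-!
# Project KZ, lemma CNT: Cauchy-Schwarz count of cells
-/

set_option autoImplicit false

namespace Pool.Agent.Q151.KZ

open Finset Filter Topology
open Pool.Agent.Q18.KZ
open Pool.Agent.W76.MO (hh nc cell lp Rough)

theorem large (A e : ℝ) (he : 0 < e) (n : ℕ) :
    ∃ J : ℕ, ∀ i : ℕ, J ≤ i → A * (i : ℝ) ^ n ≤ (2 : ℝ) ^ (e * (i : ℝ)) := by
  have hr : 1 < (2 : ℝ) ^ e := Real.one_lt_rpow one_lt_two he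
  have h1 := (tendsto_pow_const_div_const_pow_of_one_lt n hr).const_mul A
  rw [mul_zero] at h1
  obtain ⟨J, hJ⟩ := eventually_atTop.1 (h1.eventually (gt_mem_nhds (zero_lt_one (α := ℝ))))
  refine ⟨J, fun i hi => ?_⟩
  have h2 := hJ i hi
  have h3 : (2 : ℝ) ^ (e * (i : ℝ)) = ((2 : ℝ) ^ e) ^ i := by
    rw [Real.rpow_mul (by norm_num), Real.rpow_natCast]
  rw [h3]
  have h4 : 0 < ((2 : ℝ) ^ e) ^ i := by positivity
  rw [← mul_div_assoc, div_lt_one h4] at h2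
  exact h2.le

theorem hh_le (δ : ℝ) (hδ : 0 < δ) (i : ℕ) : (hh δ i : ℝ) ≤ (2 : ℝ) ^ (1 / 2 * (i : ℝ)) := by
  unfold hh
  push_cast
  rw [← Real.rpow_natCast]
  refine Real.rpow_le_rpow_of_exponent_le (by norm_num) ?_
  have hi : (0 : ℝ) ≤ i := Nat.cast_nonneg i
  rcases le_or_gt 0 ((1 / 2 - δ) * (i : ℝ)) with h | h
  · refine (Nat.floor_le h).trans ?_
    nlinarith
  · rw [Nat.floor_of_nonpos h.le]
    push_cast
    positivity

theorem E_mul (i : ℕ) (x y : ℝ) : (2 : ℝ) ^ (x * (i : ℝ)) * (2 : ℝ) ^ (y * (i : ℝ)) =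
    (2 : ℝ) ^ ((x + y) * (i : ℝ)) := by
  rw [← Real.rpow_add (by norm_num), add_mul]

theorem E_one (i : ℕ) : (2 : ℝ) ^ ((1 : ℝ) * (i : ℝ)) = 2 ^ i := by
  rw [one_mul, Real.rpow_natCast]

theorem E_mono (i : ℕ) {x y : ℝ} (h : x ≤ y) : (2 : ℝ) ^ (x * (i : ℝ)) ≤ (2 : ℝ) ^ (y * (i : ℝ)) :=
  Real.rpow_le_rpow_of_exponent_le (by norm_num) (mul_le_mul_of_nonneg_right h (Nat.cast_nonneg i))

open scoped Classical in
theorem card_cast_filter (s : Finset ℕ) (Q : ℝ → Prop) [DecidablePred Q]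
    [DecidablePred fun a : ℕ => Q a] :
    ((do let a ← s; pure (a : ℝ) : Finset ℝ).filter Q).card = (s.filter fun a : ℕ => Q a).card := by
  refine (Finset.card_bij (fun (a : ℕ) _ => (a : ℝ)) ?_ ?_ ?_).symm
  · intro a ha
    obtain ⟨h1, h2⟩ := Finset.mem_filter.1 ha
    refine Finset.mem_filter.2 ⟨?_, h2⟩
    show (a : ℝ) ∈ s.sup fun a : ℕ => ({(a : ℝ)} : Finset ℝ)
    rw [Finset.mem_sup]
    exact ⟨a, h1, Finset.mem_singleton_self _⟩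
  · intro a _ b _ h
    exact_mod_cast h
  · intro x hx
    obtain ⟨h1, h2⟩ := Finset.mem_filter.1 hx
    have h1b : x ∈ s.sup fun a : ℕ => ({(a : ℝ)} : Finset ℝ) := h1
    rw [Finset.mem_sup] at h1b
    obtain ⟨a, ha, h3⟩ := h1b
    have h4 : x = (a : ℝ) := Finset.mem_singleton.1 h3
    exact ⟨a, Finset.mem_filter.2 ⟨ha, h4 ▸ h2⟩, h4.symm⟩

open scoped Classical in
/-- **KZ-CNT**, the multipliers `v` counted as natural numbers -/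
theorem CNT_nat (hPAIR : S_PAIR) : ∀ γ c D : ℝ, 0 < γ → 0 < c → 0 < D → ∃ J : ℕ,
    ∀ (i M : ℕ) (δ : ℝ) (U : Finset ℝ) (Jk : Finset ℕ), J ≤ i → 0 < δ →
    (2 : ℝ) ^ (5 / 13 * (i : ℝ) - 1) ≤ M → (U.card : ℝ) ≤ (2 : ℝ) ^ ((1 / 2 - γ) * (i : ℝ)) →
    (∀ k ∈ Jk, c * M / i ≤ (((PrM M).filter (fun v : ℕ => ∃ u ∈ U, |lA δ i k / (v : ℝ) - u| ≤ D * hh δ i / M)).card : ℝ)) →
    (Jk.card : ℝ) ≤ (2 : ℝ) ^ (3 / 26 * (i : ℝ)) := by
  intro γ c D hγ hc hD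
  obtain ⟨C, hC, hP⟩ := hPAIR (2 * D) (by positivity)
  obtain ⟨J, hJ⟩ := large (12 * C / c ^ 2) γ hγ 2
  refine ⟨max J 1, ?_⟩
  intro i M δ U Jk hi hδ hM hU hk
  have hi1 : 1 ≤ i := le_trans (le_max_right _ _) hi
  have hir : (0 : ℝ) < i := by exact_mod_cast hi1
  have hM0 : (0 : ℝ) < M := lt_of_lt_of_le (by positivity) hM
  have hM1 : 1 ≤ M := by exact_mod_cast (by exact_mod_cast hM0 : 0 < M)
  obtain ⟨t, ht⟩ : ∃ t : ℝ, t = (2 : ℝ) ^ (γ * (i : ℝ)) := ⟨_, rfl⟩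
  have ht0 : 0 < t := by rw [ht]; positivity
  have hJt : 12 * C * (i : ℝ) ^ 2 ≤ c ^ 2 * t := by
    have h1 := hJ i (le_trans (le_max_left _ _) hi)
    rw [← ht, div_mul_eq_mul_div, div_le_iff₀ (by positivity)] at h1
    linarith
  obtain ⟨n, hn⟩ : ∃ n : ℝ, n = (Jk.card : ℝ) := ⟨_, rfl⟩
  have hn0 : 0 ≤ n := by rw [hn]; positivity
  -- the pairs
  obtain ⟨P, hPd⟩ : ∃ P : Finset (ℕ × ℕ), P = (Jk ×ˢ PrM M).filter
    (fun p => ∃ u ∈ U, |lA δ i p.1 / p.2 - u| ≤ D * hh δ i / M) := ⟨_, rfl⟩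
  have hPmem : ∀ p, p ∈ P ↔ (p.1 ∈ Jk ∧ p.2 ∈ PrM M) ∧
      ∃ u ∈ U, |lA δ i p.1 / p.2 - u| ≤ D * hh δ i / M := by
    intro p
    rw [hPd, Finset.mem_filter, Finset.mem_product]
  have hPcard : n * (c * M / i) ≤ (P.card : ℝ) := by
    have h1 : P.card = ∑ k ∈ Jk, (P.filter fun p => p.1 = k).card :=
      Finset.card_eq_sum_card_fiberwise fun p hp => Finset.mem_coe.2 ((hPmem p).1 hp).1.1
    rw [h1]
    push_cast
    have h2 : ∀ k ∈ Jk, c * M / i ≤ ((P.filter fun p => p.1 = k).card : ℝ) := by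
      intro k hk'
      refine (hk k hk').trans ?_
      have h3 : ((PrM M).filter (fun v : ℕ => ∃ u ∈ U, |lA δ i k / (v : ℝ) - u| ≤ D * hh δ i / M)).card ≤
          (P.filter fun p => p.1 = k).card := by
        refine Finset.card_le_card_of_injOn (fun v => (k, v)) ?_ ?_
        · intro v hv
          obtain ⟨h4, h5⟩ := Finset.mem_filter.1 (Finset.mem_coe.1 hv)
          exact Finset.mem_coe.2 (Finset.mem_filter.2 ⟨(hPmem _).2 ⟨⟨hk', h4⟩, h5⟩, rfl⟩)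
        · intro v _ v' _ h
          exact (Prod.mk.inj h).2
      exact_mod_cast h3
    calc n * (c * M / i) = ∑ _k ∈ Jk, c * M / i := by
          rw [Finset.sum_const, nsmul_eq_mul, hn]
      _ ≤ ∑ k ∈ Jk, ((P.filter fun p => p.1 = k).card : ℝ) := Finset.sum_le_sum h2
  have hch : ∀ p : ℕ × ℕ, ∃ u : ℝ, p ∈ P → u ∈ U ∧ |lA δ i p.1 / p.2 - u| ≤ D * hh δ i / M := by
    intro p
    by_cases hp : p ∈ P
    · obtain ⟨u, hu, h⟩ := ((hPmem p).1 hp).2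
      exact ⟨u, fun _ => ⟨hu, h⟩⟩
    · exact ⟨0, fun h => absurd h hp⟩
  choose uu huu using hch
  obtain ⟨R, hR⟩ : ∃ R : Finset ((ℕ × ℕ) × (ℕ × ℕ)), R = (P ×ˢ P).filter fun w => uu w.1 = uu w.2 := ⟨_, rfl⟩
  have hCS : (P.card : ℝ) ^ 2 ≤ (U.card : ℝ) * R.card := by
    have h1 : P.card = ∑ u ∈ U, (P.filter fun p => uu p = u).card :=
      Finset.card_eq_sum_card_fiberwise fun p hp => Finset.mem_coe.2 (huu p hp).1
    have h2 : R.card = ∑ u ∈ U, (R.filter fun w => uu w.1 = u).card := by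
      refine Finset.card_eq_sum_card_fiberwise fun w hw => ?_
      rw [Finset.mem_coe, hR] at hw
      have h3 := (Finset.mem_product.1 (Finset.mem_filter.1 hw).1).1
      exact Finset.mem_coe.2 (huu w.1 h3).1
    have h3 : ∀ u ∈ U, ((P.filter fun p => uu p = u).card : ℝ) ^ 2 ≤
        ((R.filter fun w => uu w.1 = u).card : ℝ) := by
      intro u _
      have h4 : (P.filter fun p => uu p = u) ×ˢ (P.filter fun p => uu p = u) ⊆
          R.filter fun w => uu w.1 = u := by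
        intro w hw
        obtain ⟨h5, h6⟩ := Finset.mem_product.1 hw
        obtain ⟨h5a, h5b⟩ := Finset.mem_filter.1 h5
        obtain ⟨h6a, h6b⟩ := Finset.mem_filter.1 h6
        refine Finset.mem_filter.2 ⟨?_, h5b⟩
        rw [hR]
        exact Finset.mem_filter.2 ⟨Finset.mem_product.2 ⟨h5a, h6a⟩, h5b.trans h6b.symm⟩
      have h5 := Finset.card_le_card h4
      rw [Finset.card_product] at h5
      rw [sq]
      exact_mod_cast h5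
    rw [h1, h2]
    push_cast
    calc (∑ u ∈ U, ((P.filter fun p => uu p = u).card : ℝ)) ^ 2
        ≤ (U.card : ℝ) * ∑ u ∈ U, ((P.filter fun p => uu p = u).card : ℝ) ^ 2 := sq_sum_le_card_mul_sum_sq
      _ ≤ _ := mul_le_mul_of_nonneg_left (Finset.sum_le_sum h3) (Nat.cast_nonneg _)
  have hRsub : (R.card : ℝ) ≤ C * (n * M + n ^ 2 * (1 + (M : ℝ) ^ 2 * hh δ i / 2 ^ i)) := by
    have h1 := hP δ i M Jk hM1
    rw [← hn] at h1
    refine le_trans ?_ h1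
    have h2 : R ⊆ ((Jk ×ˢ PrM M) ×ˢ (Jk ×ˢ PrM M)).filter
        (fun u => |lA δ i u.1.1 / u.1.2 - lA δ i u.2.1 / u.2.2| ≤ 2 * D * hh δ i / M) := by
      intro w hw
      rw [hR] at hw
      obtain ⟨h3, h4⟩ := Finset.mem_filter.1 hw
      obtain ⟨h5, h6⟩ := Finset.mem_product.1 h3
      have h7 := ((hPmem w.1).1 h5).1
      have h8 := ((hPmem w.2).1 h6).1
      refine Finset.mem_filter.2 ⟨Finset.mem_product.2 ⟨Finset.mem_product.2 h7,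
        Finset.mem_product.2 h8⟩, ?_⟩
      have h9 := (huu w.1 h5).2
      have h10 := (huu w.2 h6).2
      rw [← h4] at h10
      obtain ⟨a1, a2⟩ := abs_le.1 h9
      obtain ⟨b1, b2⟩ := abs_le.1 h10
      have e : 2 * D * (hh δ i : ℝ) / M = D * hh δ i / M + D * hh δ i / M := by ring
      rw [e, abs_le]
      constructor <;> linarith
    have h3 := Finset.card_le_card h2
    exact_mod_cast h3
  -- the inequality
  obtain ⟨X, hX⟩ : ∃ X : ℝ, X = (2 : ℝ) ^ ((1 / 2 - γ) * (i : ℝ)) := ⟨_, rfl⟩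
  have hX0 : 0 < X := by rw [hX]; positivity
  obtain ⟨h, hh0⟩ : ∃ h : ℝ, h = (hh δ i : ℝ) := ⟨_, rfl⟩
  have hh1 : h ≤ (2 : ℝ) ^ (1 / 2 * (i : ℝ)) := by rw [hh0]; exact hh_le δ hδ i
  have hh2 : 0 < h := by rw [hh0]; exact hh_pos δ i
  rw [← hh0] at hRsub
  rw [← hX] at hU
  have hXt : X * t = (2 : ℝ) ^ (1 / 2 * (i : ℝ)) := by
    rw [hX, ht, E_mul]
    congr 2
    ring
  have hF1 : X * (h / 2 ^ i) ≤ 1 / t := by
    have h1 : (2 : ℝ) ^ (1 / 2 * (i : ℝ)) * (2 : ℝ) ^ (1 / 2 * (i : ℝ)) = 2 ^ i := by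
      rw [E_mul, ← E_one i]
      norm_num
    rw [le_div_iff₀ ht0]
    have h2 : X * (h / 2 ^ i) * t = (X * t) * h / 2 ^ i := by ring
    rw [h2, hXt, div_le_one (by positivity)]
    calc (2 : ℝ) ^ (1 / 2 * (i : ℝ)) * h ≤ (2 : ℝ) ^ (1 / 2 * (i : ℝ)) * (2 : ℝ) ^ (1 / 2 * (i : ℝ)) :=
          mul_le_mul_of_nonneg_left hh1 (by positivity)
      _ = 2 ^ i := h1
  have hM' : (2 : ℝ) ^ (5 / 13 * (i : ℝ)) ≤ 2 * M := by
    have h1 : (2 : ℝ) ^ (5 / 13 * (i : ℝ) - 1) = (2 : ℝ) ^ (5 / 13 * (i : ℝ)) / 2 := by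
      rw [Real.rpow_sub (by norm_num), Real.rpow_one]
    rw [h1] at hM
    linarith
  have hF2 : X ≤ 4 * (M : ℝ) ^ 2 / t := by
    rw [le_div_iff₀ ht0, hXt]
    have h1 : (2 : ℝ) ^ (1 / 2 * (i : ℝ)) ≤ (2 : ℝ) ^ (5 / 13 * (i : ℝ)) * (2 : ℝ) ^ (5 / 13 * (i : ℝ)) := by
      rw [E_mul]
      exact E_mono i (by norm_num)
    refine h1.trans ?_
    calc (2 : ℝ) ^ (5 / 13 * (i : ℝ)) * (2 : ℝ) ^ (5 / 13 * (i : ℝ)) ≤ (2 * M) * (2 * M) :=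
          mul_le_mul hM' hM' (by positivity) (by positivity)
      _ = 4 * (M : ℝ) ^ 2 := by ring
  have hmain : (n * (c * M / i)) ^ 2 ≤ C * X * n * M + 5 * C * n ^ 2 * (M : ℝ) ^ 2 / t := by
    have h0 : 0 ≤ n * (c * M / i) := by positivity
    have h1 : (n * (c * M / i)) ^ 2 ≤ (P.card : ℝ) ^ 2 := pow_le_pow_left₀ h0 hPcard 2
    have h2 : (U.card : ℝ) * R.card ≤ X * (C * (n * M + n ^ 2 * (1 + (M : ℝ) ^ 2 * h / 2 ^ i))) :=
      mul_le_mul hU hRsub (Nat.cast_nonneg _) hX0.le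
    have h3 : X * (C * (n * M + n ^ 2 * (1 + (M : ℝ) ^ 2 * h / 2 ^ i))) =
        C * X * n * M + C * n ^ 2 * X + C * n ^ 2 * (M : ℝ) ^ 2 * (X * (h / 2 ^ i)) := by ring
    have h4 : C * n ^ 2 * X ≤ C * n ^ 2 * (4 * (M : ℝ) ^ 2 / t) :=
      mul_le_mul_of_nonneg_left hF2 (by positivity)
    have h5 : C * n ^ 2 * (M : ℝ) ^ 2 * (X * (h / 2 ^ i)) ≤ C * n ^ 2 * (M : ℝ) ^ 2 * (1 / t) :=
      mul_le_mul_of_nonneg_left hF1 (by positivity)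
    have h6 : C * n ^ 2 * (4 * (M : ℝ) ^ 2 / t) + C * n ^ 2 * (M : ℝ) ^ 2 * (1 / t) =
        5 * C * n ^ 2 * (M : ℝ) ^ 2 / t := by ring
    linarith
  have h5t : 5 * C * n ^ 2 * (M : ℝ) ^ 2 / t ≤ 5 / 12 * (n * (c * M / i)) ^ 2 := by
    rw [div_le_iff₀ ht0]
    have h1 : 5 / 12 * (n * (c * M / i)) ^ 2 * t = 5 / 12 * n ^ 2 * (M : ℝ) ^ 2 * (c ^ 2 * t) / (i : ℝ) ^ 2 := by
      field_simp
    rw [h1, le_div_iff₀ (by positivity)]
    calc 5 * C * n ^ 2 * (M : ℝ) ^ 2 * (i : ℝ) ^ 2 = 5 / 12 * n ^ 2 * (M : ℝ) ^ 2 * (12 * C * (i : ℝ) ^ 2) := by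
          ring
      _ ≤ 5 / 12 * n ^ 2 * (M : ℝ) ^ 2 * (c ^ 2 * t) := mul_le_mul_of_nonneg_left hJt (by positivity)
  have h7 : 7 / 12 * (n * (c * M / i)) ^ 2 ≤ C * X * n * M := by linarith
  rw [← hn]
  rcases hn0.eq_or_lt with hn1 | hn1
  · rw [← hn1]
    positivity
  have h8 : 7 / 12 * n * (c ^ 2 * M) ≤ C * X * (i : ℝ) ^ 2 := by
    have h9 : 7 / 12 * (n * (c * M / i)) ^ 2 = (7 / 12 * n * (c ^ 2 * M)) * (n * M) / (i : ℝ) ^ 2 := by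
      field_simp
    rw [h9, div_le_iff₀ (by positivity)] at h7
    have h10 : C * X * n * M * (i : ℝ) ^ 2 = (C * X * (i : ℝ) ^ 2) * (n * M) := by ring
    rw [h10] at h7
    exact le_of_mul_le_mul_right h7 (by positivity)
  -- conclusion
  have h11 : 7 * n * M ≤ X * t := by
    have h12 : c ^ 2 * (7 * n * M) ≤ c ^ 2 * (X * t) := by
      calc c ^ 2 * (7 * n * M) = 12 * (7 / 12 * n * (c ^ 2 * M)) := by ring
        _ ≤ 12 * (C * X * (i : ℝ) ^ 2) := by linarith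
        _ = X * (12 * C * (i : ℝ) ^ 2) := by ring
        _ ≤ X * (c ^ 2 * t) := mul_le_mul_of_nonneg_left hJt hX0.le
        _ = c ^ 2 * (X * t) := by ring
    exact le_of_mul_le_mul_left h12 (by positivity)
  rw [hXt] at h11
  have h13 : (2 : ℝ) ^ (1 / 2 * (i : ℝ)) = (2 : ℝ) ^ (3 / 26 * (i : ℝ)) * (2 : ℝ) ^ (5 / 13 * (i : ℝ)) := by
    rw [E_mul]
    congr 2
    norm_num
  rw [h13] at h11
  have h14 : (2 : ℝ) ^ (3 / 26 * (i : ℝ)) * (2 : ℝ) ^ (5 / 13 * (i : ℝ)) ≤ (2 : ℝ) ^ (3 / 26 * (i : ℝ)) * (2 * M) :=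
    mul_le_mul_of_nonneg_left hM' (by positivity)
  have h15 : (7 * n) * M ≤ (2 * (2 : ℝ) ^ (3 / 26 * (i : ℝ))) * M := by linarith
  have h16 := le_of_mul_le_mul_right h15 hM0
  have h17 : (0 : ℝ) < (2 : ℝ) ^ (3 / 26 * (i : ℝ)) := by positivity
  linarith

/-- **KZ-CNT** -/
theorem t_CNT (hPAIR : S_PAIR) : S_CNT := by
  intro γ c D hγ hc hD
  obtain ⟨J, hJ⟩ := CNT_nat hPAIR γ c D hγ hc hD
  refine ⟨J, fun i M δ U Jk hi hδ hM hU hk => hJ i M δ U Jk hi hδ hM hU fun k hk' => ?_⟩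
  refine (hk k hk').trans (le_of_eq ?_)
  congr 1
  exact card_cast_filter (PrM M) (fun v : ℝ => ∃ u ∈ U, |lA δ i k / v - u| ≤ D * hh δ i / M)

end Pool.Agent.Q151.KZ
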