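import Pool.Agent.Q151.KZ.CNT

/-!
# Project KZ, lemma HVY: heavy `q` are near few points
-/

set_option autoImplicit false

namespace Pool.Agent.Q151.KZ

open Finset Filter Topology
open Pool.Agent.Q18.KZ
open Pool.Agent.W76.MO (hh nc cell lp Rough)

/-- a maximal separated subset -/
theorem exists_sep (Q : Finset ℕ) (s : ℝ) : ∃ U ⊆ Q, (∀ a ∈ U, ∀ b ∈ U, a ≠ b → s < |(a : ℝ) - b|) ∧
    ∀ q ∈ Q, ∃ u ∈ U, |(q : ℝ) - u| ≤ s ∨ q = u := by
  classical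
  obtain ⟨W, hW⟩ : ∃ W : Finset (Finset ℕ), ∀ T, T ∈ W ↔
      T ⊆ Q ∧ ∀ a ∈ T, ∀ b ∈ T, a ≠ b → s < |(a : ℝ) - b| :=
    ⟨Q.powerset.filter fun T => ∀ a ∈ T, ∀ b ∈ T, a ≠ b → s < |(a : ℝ) - b|, fun T => by
      rw [Finset.mem_filter, Finset.mem_powerset]⟩
  obtain ⟨T, hT, hmax⟩ := Finset.exists_max_image W Finset.card
    ⟨∅, (hW ∅).2 ⟨Finset.empty_subset Q, fun b hb => absurd hb (Finset.notMem_empty b)⟩⟩
  obtain ⟨hTQ, hTR⟩ := (hW T).1 hT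
  refine ⟨T, hTQ, hTR, fun q hq => ?_⟩
  by_contra hno
  push Not at hno
  have hqT : q ∉ T := fun h => (hno q h).2 rfl
  have h1 : insert q T ∈ W := by
    refine (hW _).2 ⟨Finset.insert_subset hq hTQ, ?_⟩
    intro x hx x' hx' hne
    rcases Finset.mem_insert.1 hx with h5 | h5
    · rcases Finset.mem_insert.1 hx' with h6 | h6
      · exact absurd (h5.trans h6.symm) hne
      · rw [h5]
        exact (hno x' h6).1
    · rcases Finset.mem_insert.1 hx' with h6 | h6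
      · rw [h6, abs_sub_comm]
        exact (hno x h5).1
      · exact hTR x h5 x' h6 hne
  have h2 := hmax _ h1
  rw [Finset.card_insert_of_notMem hqT] at h2
  omega

theorem mem_VR {i v : ℕ} : v ∈ VR i ↔ v < 2 ^ i + 1 ∧ v.Prime ∧
    (2 : ℝ) ^ (5 / 13 * (i : ℝ)) < v ∧ (v : ℝ) ≤ (2 : ℝ) ^ (0.385 * (i : ℝ)) := by
  unfold VR
  rw [Finset.mem_filter, Finset.mem_range]

/-- **KZ-HVY** -/
theorem t_HVY (hPAIR : S_PAIR) : S_HVY := by
  classical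
  obtain ⟨C, hC, hP⟩ := hPAIR 2 (by norm_num)
  obtain ⟨J, hJ⟩ := large (50 * C) 0.0006 (by norm_num) 2
  refine ⟨max J 1, ?_⟩
  intro i M δ K hi hδ hK hM hM'
  have hi1 : 1 ≤ i := le_trans (le_max_right _ _) hi
  have hJi := hJ i (le_trans (le_max_left _ _) hi)
  have hir : (1 : ℝ) ≤ i := by exact_mod_cast hi1
  have hM0 : (0 : ℝ) < M := by exact_mod_cast hM
  obtain ⟨h, hh0⟩ : ∃ h : ℝ, h = (hh δ i : ℝ) := ⟨_, rfl⟩
  have hpos : 0 < h := by rw [hh0]; exact hh_pos δ i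
  have hh1 : h ≤ (2 : ℝ) ^ (1 / 2 * (i : ℝ)) := by rw [hh0]; exact hh_le δ hδ i
  obtain ⟨H, hH⟩ : ∃ H : ℝ, H = (2 : ℝ) ^ ((5 / 26 - 1 / 2000) * (i : ℝ)) := ⟨_, rfl⟩
  have hH0 : 0 < H := by rw [hH]; positivity
  obtain ⟨Qs, hQs⟩ : ∃ Qs : Finset ℕ, ∀ q, q ∈ Qs ↔ q < 4 * 2 ^ i + 1 ∧ (M : ℝ) * q ≤ 4 * 2 ^ i ∧
      H < (((VR i).filter (fun v => v * q ∈ ActD δ i K)).card : ℝ) :=
    ⟨(range (4 * 2 ^ i + 1)).filter fun q => (M : ℝ) * q ≤ 4 * 2 ^ i ∧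
      H < (((VR i).filter (fun v => v * q ∈ ActD δ i K)).card : ℝ), fun q => by
        rw [Finset.mem_filter, Finset.mem_range]⟩
  obtain ⟨U, hUQ, hUs, hUc⟩ := exists_sep Qs (h / M)
  rw [← hh0, ← hH]
  refine ⟨U.image fun q : ℕ => (q : ℝ), ?_, ?_⟩
  swap
  · intro q _ hq2 hq3
    have hqQ : q ∈ Qs := by
      refine (hQs q).2 ⟨?_, hq2, hq3⟩
      have h1 : (q : ℝ) ≤ M * q := by
        have : (1 : ℝ) ≤ M := by exact_mod_cast hM
        nlinarith [(Nat.cast_nonneg q : (0 : ℝ) ≤ q)]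
      have h2 : (q : ℝ) ≤ 4 * 2 ^ i := h1.trans hq2
      have h3 : q ≤ 4 * 2 ^ i := by exact_mod_cast h2
      omega
    obtain ⟨u, hu, h1⟩ := hUc q hqQ
    refine ⟨(u : ℝ), Finset.mem_image_of_mem _ hu, ?_⟩
    rcases h1 with h1 | h1
    · exact h1
    · rw [h1, sub_self, abs_zero]
      positivity
  -- the cells
  have hkk : ∀ q v : ℕ, ∃ k : ℕ, v * q ∈ ActD δ i K → k ∈ K ∧ v * q ∈ cell δ i k := by
    intro q v
    by_cases hv : v * q ∈ ActD δ i K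
    · obtain ⟨k, hk, h1⟩ := Finset.mem_biUnion.1 hv
      exact ⟨k, fun _ => ⟨hk, h1⟩⟩
    · exact ⟨0, fun h => absurd h hv⟩
  choose kk hkk using hkk
  have hnear : ∀ q v : ℕ, 0 < v → v * q ∈ ActD δ i K →
      (2 : ℝ) ^ i < (v : ℝ) * q ∧ 0 ≤ (q : ℝ) - lA δ i (kk q v) / v ∧ (q : ℝ) - lA δ i (kk q v) / v ≤ h / v := by
    intro q v hv hvq
    have hv0 : (0 : ℝ) < v := by exact_mod_cast hv
    have h1 := (hkk q v hvq).2
    unfold cell at h1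
    obtain ⟨h2, h3⟩ := Finset.mem_Ioc.1 h1
    have h4 : (2 : ℝ) ^ i + kk q v * h < (v : ℝ) * q := by
      rw [hh0]
      exact_mod_cast h2
    have h5 : (v : ℝ) * q ≤ 2 ^ i + (kk q v + 1) * h := by
      rw [hh0]
      exact_mod_cast h3
    have h6 : (q : ℝ) - lA δ i (kk q v) / v = (v * q - lA δ i (kk q v)) / v := by
      field_simp
    have h7 : lA δ i (kk q v) = 2 ^ i + kk q v * h := by
      unfold lA
      rw [hh0]
    refine ⟨?_, ?_, ?_⟩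
    · have : (0 : ℝ) ≤ kk q v * h := by positivity
      linarith
    · rw [h6, h7]
      exact div_nonneg (by linarith) hv0.le
    · rw [h6, h7]
      exact (div_le_div_iff_of_pos_right hv0).2 (by linarith)
  -- the counts
  obtain ⟨W, hWd⟩ : ∃ W : ℕ → ℕ → Finset ℕ, ∀ q m v, v ∈ W q m ↔
      (v ∈ VR i ∧ v * q ∈ ActD δ i K) ∧ Nat.log 2 v = m :=
    ⟨fun q m => ((VR i).filter fun v => v * q ∈ ActD δ i K).filter fun v => Nat.log 2 v = m,
      fun q m v => by rw [Finset.mem_filter, Finset.mem_filter]⟩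
  have hWcard : ∀ q ∈ U, H ^ 2 ≤ i * ∑ m ∈ range i, ((W q m).card : ℝ) ^ 2 := by
    intro q hq
    have h1 := ((hQs q).1 (hUQ hq)).2.2
    have h2 : ((VR i).filter fun v => v * q ∈ ActD δ i K).card = ∑ m ∈ range i, (W q m).card := by
      have h3 : ∀ v ∈ (VR i).filter (fun v => v * q ∈ ActD δ i K), Nat.log 2 v ∈ range i := by
        intro v hv
        obtain ⟨h4, h5⟩ := Finset.mem_filter.1 hv
        obtain ⟨_, h6, _, h7⟩ := mem_VR.1 h4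
        refine Finset.mem_range.2 (Nat.log_lt_of_lt_pow h6.pos.ne' ?_)
        have h8 : (v : ℝ) < 2 ^ i := by
          refine h7.trans_lt ?_
          rw [← Real.rpow_natCast 2 i]
          exact Real.rpow_lt_rpow_of_exponent_lt (by norm_num) (by nlinarith)
        exact_mod_cast h8
      rw [Finset.card_eq_sum_card_fiberwise h3]
      refine Finset.sum_congr rfl fun m _ => ?_
      congr 1
      ext v
      rw [hWd, Finset.mem_filter, Finset.mem_filter]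
    have h3 : (((VR i).filter fun v => v * q ∈ ActD δ i K).card : ℝ) = ∑ m ∈ range i, ((W q m).card : ℝ) := by
      rw [h2]
      push_cast
      rfl
    rw [h3] at h1
    have h4 : H ^ 2 ≤ (∑ m ∈ range i, ((W q m).card : ℝ)) ^ 2 := pow_le_pow_left₀ hH0.le h1.le 2
    refine h4.trans ?_
    have h5 := sq_sum_le_card_mul_sum_sq (s := range i) (f := fun m => ((W q m).card : ℝ))
    rw [Finset.card_range] at h5
    exact h5
  have hTm : ∀ m ∈ range i, ∑ q ∈ U, ((W q m).card : ℝ) ^ 2 ≤ 50 * C * (2 : ℝ) ^ (0.882 * (i : ℝ)) := by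
    intro m _
    by_cases hne : ∃ q ∈ U, (W q m).Nonempty
    swap
    · have h1 : ∑ q ∈ U, ((W q m).card : ℝ) ^ 2 = 0 := by
        refine Finset.sum_eq_zero fun q hq => ?_
        have h2 : W q m = ∅ := by
          by_contra h3
          exact hne ⟨q, hq, Finset.nonempty_iff_ne_empty.2 h3⟩
        rw [h2, Finset.card_empty]
        norm_num
      rw [h1]
      positivity
    obtain ⟨q₀, _, v₀, hv₀⟩ := hne
    have hm2 : ((2 ^ m : ℕ) : ℝ) ≤ (2 : ℝ) ^ (0.385 * (i : ℝ)) := by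
      obtain ⟨⟨h1, _⟩, h2⟩ := (hWd q₀ m v₀).1 hv₀
      obtain ⟨_, h3, _, h4⟩ := mem_VR.1 h1
      refine le_trans ?_ h4
      have h5 := Nat.pow_log_le_self 2 h3.pos.ne'
      rw [h2] at h5
      exact_mod_cast h5
    -- the triples
    obtain ⟨T, hTd⟩ : ∃ T : Finset (ℕ × (ℕ × ℕ)), ∀ w, w ∈ T ↔ (w.1 ∈ U ∧ w.2.1 ∈ VR i ∧ w.2.2 ∈ VR i) ∧
        w.2.1 ∈ W w.1 m ∧ w.2.2 ∈ W w.1 m :=
      ⟨(U ×ˢ (VR i ×ˢ VR i)).filter fun w => w.2.1 ∈ W w.1 m ∧ w.2.2 ∈ W w.1 m, fun w => by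
        rw [Finset.mem_filter, Finset.mem_product, Finset.mem_product]⟩
    have hTcard : ∑ q ∈ U, ((W q m).card : ℝ) ^ 2 ≤ (T.card : ℝ) := by
      have h1 : T.card = ∑ q ∈ U, (T.filter fun w => w.1 = q).card :=
        Finset.card_eq_sum_card_fiberwise fun w hw => Finset.mem_coe.2 ((hTd w).1 hw).1.1
      rw [h1]
      push_cast
      refine Finset.sum_le_sum fun q hq => ?_
      have h2 : (W q m ×ˢ W q m).card ≤ (T.filter fun w => w.1 = q).card := by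
        refine Finset.card_le_card_of_injOn (fun x => (q, x)) ?_ ?_
        · intro x hx
          obtain ⟨h3, h4⟩ := Finset.mem_product.1 (Finset.mem_coe.1 hx)
          exact Finset.mem_coe.2 (Finset.mem_filter.2 ⟨(hTd _).2 ⟨⟨hq, ((hWd q m x.1).1 h3).1.1,
            ((hWd q m x.2).1 h4).1.1⟩, h3, h4⟩, rfl⟩)
        · intro x _ x' _ h
          exact (Prod.mk.inj h).2
      rw [Finset.card_product] at h2
      rw [sq]
      exact_mod_cast h2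
    refine hTcard.trans ?_
    obtain ⟨G, hG⟩ : ∃ G : Finset ((ℕ × ℕ) × (ℕ × ℕ)), G = ((K ×ˢ PrM (2 ^ m)) ×ˢ (K ×ˢ PrM (2 ^ m))).filter
        (fun u => |lA δ i u.1.1 / u.1.2 - lA δ i u.2.1 / u.2.2| ≤ 2 * hh δ i / ((2 ^ m : ℕ) : ℝ)) := ⟨_, rfl⟩
    have hWprop : ∀ q v, v ∈ W q m → 0 < v ∧ v ∈ PrM (2 ^ m) ∧ v * q ∈ ActD δ i K ∧
        ((2 ^ m : ℕ) : ℝ) ≤ v := by
      intro q v hv
      obtain ⟨⟨h1, h2⟩, h3⟩ := (hWd q m v).1 hv
      obtain ⟨_, h4, _, _⟩ := mem_VR.1 h1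
      have h5 := Nat.pow_log_le_self 2 h4.pos.ne'
      have h6 := Nat.lt_pow_succ_log_self (b := 2) (by norm_num) v
      rw [h3] at h5 h6
      have h7 : v < 2 ^ m * 2 := by rw [← pow_succ]; exact h6
      have h8 := h4.pos
      exact ⟨h8, mem_PrM.2 ⟨by omega, h4, by omega⟩, h2, by exact_mod_cast h5⟩
    have hTG : (T.card : ℝ) ≤ G.card * 5 := by
      refine card_le_mul_real T G (fun w => ((kk w.1 w.2.1, w.2.1), (kk w.1 w.2.2, w.2.2))) ?_ 5 ?_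
      · intro w hw
        obtain ⟨_, h1, h2⟩ := (hTd w).1 hw
        obtain ⟨a1, a2, a3, a4⟩ := hWprop _ _ h1
        obtain ⟨b1, b2, b3, b4⟩ := hWprop _ _ h2
        obtain ⟨_, a5, a6⟩ := hnear _ _ a1 a3
        obtain ⟨_, b5, b6⟩ := hnear _ _ b1 b3
        rw [hG]
        refine Finset.mem_filter.2 ⟨Finset.mem_product.2 ⟨Finset.mem_product.2 ⟨(hkk _ _ a3).1, a2⟩,
          Finset.mem_product.2 ⟨(hkk _ _ b3).1, b2⟩⟩, ?_⟩
        show |lA δ i (kk w.1 w.2.1) / (w.2.1 : ℝ) - lA δ i (kk w.1 w.2.2) / (w.2.2 : ℝ)| ≤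
          2 * hh δ i / ((2 ^ m : ℕ) : ℝ)
        rw [← hh0]
        have hp2 : (0 : ℝ) < ((2 ^ m : ℕ) : ℝ) := by positivity
        have a7 : h / (w.2.1 : ℝ) ≤ h / ((2 ^ m : ℕ) : ℝ) := div_le_div_of_nonneg_left hpos.le hp2 a4
        have b7 : h / (w.2.2 : ℝ) ≤ h / ((2 ^ m : ℕ) : ℝ) := div_le_div_of_nonneg_left hpos.le hp2 b4
        have e : 2 * h / ((2 ^ m : ℕ) : ℝ) = h / ((2 ^ m : ℕ) : ℝ) + h / ((2 ^ m : ℕ) : ℝ) := by ring
        have hp3 : 0 < h / ((2 ^ m : ℕ) : ℝ) := by positivity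
        rw [e, abs_le]
        constructor <;> linarith
      · intro b hb
        rcases (T.filter fun w => ((kk w.1 w.2.1, w.2.1), (kk w.1 w.2.2, w.2.2)) = b).eq_empty_or_nonempty with h0 | ⟨w₀, hw₀⟩
        · rw [h0, Finset.card_empty]
          norm_num
        · obtain ⟨h1, h2⟩ := Finset.mem_filter.1 hw₀
          obtain ⟨h3, h4, _⟩ := (hTd w₀).1 h1
          obtain ⟨a1, a2, a3, a4⟩ := hWprop _ _ h4
          obtain ⟨a5, _, _⟩ := hnear _ _ a1 a3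
          have hb2 : b.1.2 = w₀.2.1 := by rw [← h2]
          obtain ⟨v, hv⟩ : ∃ v, v = w₀.2.1 := ⟨_, rfl⟩
          rw [← hv] at a1 a2 a3 a4 a5 hb2
          have hv0 : (0 : ℝ) < v := by exact_mod_cast a1
          -- `M < 4 v`
          have hMv : (M : ℝ) < 4 * v := by
            have h6 := ((hQs w₀.1).1 (hUQ h3.1)).2.1
            have h7 : (M : ℝ) * w₀.1 < 4 * v * w₀.1 := by nlinarith
            have h8 : (0 : ℝ) ≤ (w₀.1 : ℝ) := Nat.cast_nonneg _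
            exact lt_of_mul_lt_mul_right h7 h8
          have h9 := card_spread
            (T.filter fun w => ((kk w.1 w.2.1, w.2.1), (kk w.1 w.2.2, w.2.2)) = b)
            (fun w => (w.1 : ℝ)) (h / M) (lA δ i b.1.1 / v) (h / v) (by positivity) (by positivity) ?_ ?_
          · refine h9.trans ?_
            have h10 : h / v / (h / M) = M / v := by field_simp
            rw [h10]
            have h11 : (M : ℝ) / v < 4 := by
              rw [div_lt_iff₀ hv0]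
              exact hMv
            linarith
          · intro w hw w' hw' hne'
            obtain ⟨c1, c2⟩ := Finset.mem_filter.1 hw
            obtain ⟨c1', c2'⟩ := Finset.mem_filter.1 hw'
            have hc : ((kk w.1 w.2.1, w.2.1), (kk w.1 w.2.2, w.2.2)) =
                ((kk w'.1 w'.2.1, w'.2.1), (kk w'.1 w'.2.2, w'.2.2)) := c2.trans c2'.symm
            obtain ⟨hc1, hc2⟩ := Prod.mk.inj hc
            have e1 : w.2.1 = w'.2.1 := (Prod.mk.inj hc1).2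
            have e2 : w.2.2 = w'.2.2 := (Prod.mk.inj hc2).2
            have e3 : w.1 ≠ w'.1 := fun h => hne' (Prod.ext h (Prod.ext e1 e2))
            exact (hUs w.1 ((hTd w).1 c1).1.1 w'.1 ((hTd w').1 c1').1.1 e3).le
          · intro w hw
            obtain ⟨c1, c2⟩ := Finset.mem_filter.1 hw
            obtain ⟨_, c4, _⟩ := (hTd w).1 c1
            obtain ⟨d1, _, d3, _⟩ := hWprop _ _ c4
            obtain ⟨_, d5, d6⟩ := hnear _ _ d1 d3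
            have e1 : b.1.2 = w.2.1 := by rw [← c2]
            have e2 : b.1.1 = kk w.1 w.2.1 := by rw [← c2]
            rw [← e2, ← e1, hb2] at d5 d6
            show lA δ i b.1.1 / (v : ℝ) ≤ (w.1 : ℝ) ∧ (w.1 : ℝ) ≤ lA δ i b.1.1 / (v : ℝ) + h / v
            constructor <;> linarith
    have hGc : (G.card : ℝ) ≤ C * ((K.card : ℝ) * ((2 ^ m : ℕ) : ℝ) +
        (K.card : ℝ) ^ 2 * (1 + ((2 ^ m : ℕ) : ℝ) ^ 2 * h / 2 ^ i)) := by
      rw [hG, hh0]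
      exact hP δ i (2 ^ m) K Nat.one_le_two_pow
    obtain ⟨x, hx⟩ : ∃ x : ℝ, x = ((2 ^ m : ℕ) : ℝ) := ⟨_, rfl⟩
    rw [← hx] at hGc hm2
    have hx0 : 0 ≤ x := by rw [hx]; positivity
    obtain ⟨κ, hκ⟩ : ∃ κ : ℝ, κ = (K.card : ℝ) := ⟨_, rfl⟩
    rw [← hκ] at hGc hK
    have hκ0 : 0 ≤ κ := by rw [hκ]; positivity
    have hb1 : κ * x ≤ 2 * (2 : ℝ) ^ (0.882 * (i : ℝ)) := by
      calc κ * x ≤ (2 * (2 : ℝ) ^ (0.306 * (i : ℝ))) * (2 : ℝ) ^ (0.385 * (i : ℝ)) :=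
            mul_le_mul hK hm2 hx0 (by positivity)
        _ = 2 * (2 : ℝ) ^ ((0.306 + 0.385) * (i : ℝ)) := by rw [mul_assoc, E_mul]
        _ ≤ 2 * (2 : ℝ) ^ (0.882 * (i : ℝ)) := mul_le_mul_of_nonneg_left (E_mono i (by norm_num)) (by norm_num)
    have hb2 : κ ^ 2 ≤ 4 * (2 : ℝ) ^ (0.612 * (i : ℝ)) := by
      calc κ ^ 2 ≤ (2 * (2 : ℝ) ^ (0.306 * (i : ℝ))) ^ 2 := pow_le_pow_left₀ hκ0 hK 2
        _ = 4 * ((2 : ℝ) ^ (0.306 * (i : ℝ)) * (2 : ℝ) ^ (0.306 * (i : ℝ))) := by ring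
        _ = 4 * (2 : ℝ) ^ (0.612 * (i : ℝ)) := by
            rw [E_mul]
            norm_num
    have hb3 : x ^ 2 * h / 2 ^ i ≤ (2 : ℝ) ^ (0.27 * (i : ℝ)) := by
      rw [div_le_iff₀ (by positivity)]
      calc x ^ 2 * h ≤ ((2 : ℝ) ^ (0.385 * (i : ℝ))) ^ 2 * (2 : ℝ) ^ (1 / 2 * (i : ℝ)) :=
            mul_le_mul (pow_le_pow_left₀ hx0 hm2 2) hh1 hpos.le (by positivity)
        _ = (2 : ℝ) ^ (0.27 * (i : ℝ)) * (2 : ℝ) ^ ((1 : ℝ) * (i : ℝ)) := by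
            rw [sq, E_mul, E_mul, E_mul]
            norm_num
        _ = (2 : ℝ) ^ (0.27 * (i : ℝ)) * 2 ^ i := by rw [E_one]
    have hb4 : κ ^ 2 * (1 + x ^ 2 * h / 2 ^ i) ≤ 8 * (2 : ℝ) ^ (0.882 * (i : ℝ)) := by
      have h1 : 1 + x ^ 2 * h / 2 ^ i ≤ 2 * (2 : ℝ) ^ (0.27 * (i : ℝ)) := by
        have h2 : (1 : ℝ) ≤ (2 : ℝ) ^ (0.27 * (i : ℝ)) := Real.one_le_rpow (by norm_num) (by positivity)
        linarith
      calc κ ^ 2 * (1 + x ^ 2 * h / 2 ^ i) ≤ (4 * (2 : ℝ) ^ (0.612 * (i : ℝ))) * (2 * (2 : ℝ) ^ (0.27 * (i : ℝ))) :=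
            mul_le_mul hb2 h1 (by positivity) (by positivity)
        _ = 8 * ((2 : ℝ) ^ (0.612 * (i : ℝ)) * (2 : ℝ) ^ (0.27 * (i : ℝ))) := by ring
        _ = 8 * (2 : ℝ) ^ (0.882 * (i : ℝ)) := by
            rw [E_mul]
            norm_num
    calc (T.card : ℝ) ≤ G.card * 5 := hTG
      _ ≤ (C * (κ * x + κ ^ 2 * (1 + x ^ 2 * h / 2 ^ i))) * 5 := by linarith
      _ ≤ (C * (2 * (2 : ℝ) ^ (0.882 * (i : ℝ)) + 8 * (2 : ℝ) ^ (0.882 * (i : ℝ)))) * 5 := by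
          refine mul_le_mul_of_nonneg_right (mul_le_mul_of_nonneg_left ?_ hC.le) (by norm_num)
          linarith
      _ = 50 * C * (2 : ℝ) ^ (0.882 * (i : ℝ)) := by ring
  -- the total
  have hsum : (U.card : ℝ) * H ^ 2 ≤ i * (i * (50 * C * (2 : ℝ) ^ (0.882 * (i : ℝ)))) := by
    calc (U.card : ℝ) * H ^ 2 = ∑ _q ∈ U, H ^ 2 := by rw [Finset.sum_const, nsmul_eq_mul]
      _ ≤ ∑ q ∈ U, (i : ℝ) * ∑ m ∈ range i, ((W q m).card : ℝ) ^ 2 := Finset.sum_le_sum hWcard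
      _ = (i : ℝ) * ∑ m ∈ range i, ∑ q ∈ U, ((W q m).card : ℝ) ^ 2 := by
          rw [← Finset.mul_sum, Finset.sum_comm]
      _ ≤ (i : ℝ) * ∑ _m ∈ range i, 50 * C * (2 : ℝ) ^ (0.882 * (i : ℝ)) :=
          mul_le_mul_of_nonneg_left (Finset.sum_le_sum hTm) (Nat.cast_nonneg i)
      _ = i * (i * (50 * C * (2 : ℝ) ^ (0.882 * (i : ℝ)))) := by
          rw [Finset.sum_const, Finset.card_range, nsmul_eq_mul]
  have hH2 : H ^ 2 = (2 : ℝ) ^ ((5 / 13 - 1 / 1000) * (i : ℝ)) := by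
    rw [hH, sq, E_mul]
    congr 2
    norm_num
  have himg : ((U.image fun q : ℕ => (q : ℝ)).card : ℝ) ≤ U.card := by
    exact_mod_cast Finset.card_image_le
  refine himg.trans ?_
  have hfin : (U.card : ℝ) * H ^ 2 ≤ (2 : ℝ) ^ (0.499 * (i : ℝ)) * H ^ 2 := by
    refine hsum.trans ?_
    calc (i : ℝ) * (i * (50 * C * (2 : ℝ) ^ (0.882 * (i : ℝ)))) =
        (50 * C * (i : ℝ) ^ 2) * (2 : ℝ) ^ (0.882 * (i : ℝ)) := by ring
      _ ≤ (2 : ℝ) ^ (0.0006 * (i : ℝ)) * (2 : ℝ) ^ (0.882 * (i : ℝ)) :=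
          mul_le_mul_of_nonneg_right hJi (by positivity)
      _ = (2 : ℝ) ^ ((0.0006 + 0.882) * (i : ℝ)) := E_mul i _ _
      _ ≤ (2 : ℝ) ^ ((0.499 + (5 / 13 - 1 / 1000)) * (i : ℝ)) := E_mono i (by norm_num)
      _ = (2 : ℝ) ^ (0.499 * (i : ℝ)) * H ^ 2 := by rw [hH2, E_mul]
  exact le_of_mul_le_mul_right hfin (by positivity)

end Pool.Agent.Q151.KZ
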