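import Pool.Agent.Q18.KZ.S4

/-!
# Project KZ, lemma PAIR: pairs of near dilated cells
-/

set_option autoImplicit false

namespace Pool.Agent.Q151.KZ

open Finset Filter Topology
open Pool.Agent.Q18.KZ
open Pool.Agent.W76.MO (hh nc cell lp Rough)

/-- separated points in an interval -/
theorem card_spread {α : Type} (S : Finset α) (f : α → ℝ) (g x r : ℝ) (hg : 0 < g) (hr : 0 ≤ r)
    (hsep : ∀ a ∈ S, ∀ b ∈ S, a ≠ b → g ≤ |f a - f b|) (hx : ∀ a ∈ S, x ≤ f a ∧ f a ≤ x + r) :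
    (S.card : ℝ) ≤ r / g + 1 := by
  have h1 : S.card ≤ (range (⌊r / g⌋₊ + 1)).card := by
    refine Finset.card_le_card_of_injOn (fun a => ⌊(f a - x) / g⌋₊) ?_ ?_
    · intro a ha
      obtain ⟨h1, h2⟩ := hx a ha
      have h3 : (f a - x) / g ≤ r / g := (div_le_div_iff_of_pos_right hg).2 (by linarith)
      have h4 := Nat.floor_le_floor h3
      exact Finset.mem_coe.2 (Finset.mem_range.2 (by
        show ⌊(f a - x) / g⌋₊ < _
        omega))
    · intro a ha b hb hab
      by_contra hne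
      have h1 := hsep a ha b hb hne
      have hab' : ⌊(f a - x) / g⌋₊ = ⌊(f b - x) / g⌋₊ := hab
      have h2 : 0 ≤ (f a - x) / g := div_nonneg (by linarith [(hx a ha).1]) hg.le
      have h3 : 0 ≤ (f b - x) / g := div_nonneg (by linarith [(hx b hb).1]) hg.le
      have h4 := Nat.floor_le h2
      have h5 := Nat.lt_floor_add_one ((f a - x) / g)
      have h6 := Nat.floor_le h3
      have h7 := Nat.lt_floor_add_one ((f b - x) / g)
      rw [hab'] at h4 h5
      have h8 : |(f a - x) / g - (f b - x) / g| < 1 := by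
        rw [abs_lt]
        constructor <;> linarith
      have h9 : (f a - x) / g - (f b - x) / g = (f a - f b) / g := by ring
      rw [h9, abs_div, abs_of_pos hg, div_lt_one hg] at h8
      linarith
  rw [Finset.card_range] at h1
  have h2 : ((⌊r / g⌋₊ : ℕ) : ℝ) ≤ r / g := Nat.floor_le (div_nonneg hr hg.le)
  calc (S.card : ℝ) ≤ ((⌊r / g⌋₊ + 1 : ℕ) : ℝ) := by exact_mod_cast h1
    _ = (⌊r / g⌋₊ : ℝ) + 1 := by push_cast; ring
    _ ≤ r / g + 1 := by linarith

theorem card_le_mul_real {α β : Type} [DecidableEq β] (s : Finset α) (t : Finset β) (f : α → β)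
    (hf : ∀ a ∈ s, f a ∈ t) (B : ℝ) (hB : ∀ b ∈ t, ((s.filter fun a => f a = b).card : ℝ) ≤ B) :
    (s.card : ℝ) ≤ t.card * B := by
  rw [Finset.card_eq_sum_card_fiberwise hf]
  push_cast
  calc ∑ b ∈ t, ((s.filter fun a => f a = b).card : ℝ) ≤ ∑ _b ∈ t, B := Finset.sum_le_sum hB
    _ = t.card * B := by rw [Finset.sum_const, nsmul_eq_mul]

theorem mem_PrM {M v : ℕ} : v ∈ PrM M ↔ v ≤ 8 * M ∧ v.Prime ∧ M < 8 * v := by
  unfold PrM
  rw [Finset.mem_filter, Finset.mem_range]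
  constructor
  · rintro ⟨h1, h2, h3⟩
    exact ⟨by omega, h2, h3⟩
  · rintro ⟨h1, h2, h3⟩
    exact ⟨by omega, h2, h3⟩

theorem card_PrM (M : ℕ) : ((PrM M).card : ℝ) ≤ 8 * M := by
  have h1 : PrM M ⊆ Finset.Icc 1 (8 * M) := by
    intro v hv
    obtain ⟨h1, h2, _⟩ := mem_PrM.1 hv
    exact Finset.mem_Icc.2 ⟨h2.one_le, h1⟩
  have h2 := Finset.card_le_card h1
  rw [Nat.card_Icc] at h2
  have h3 : (PrM M).card ≤ 8 * M := by omega
  exact_mod_cast h3

theorem hh_pos (δ : ℝ) (i : ℕ) : 0 < (hh δ i : ℝ) := by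
  unfold hh
  positivity

theorem two_pow_le_lA (δ : ℝ) (i k : ℕ) : (2 : ℝ) ^ i ≤ lA δ i k := by
  unfold lA
  have := hh_pos δ i
  have h2 : (0 : ℝ) ≤ k * hh δ i := by positivity
  linarith

theorem cross_ne {v₁ w₁ v₂ w₂ : ℕ} (h1 : v₁.Prime) (h2 : w₁.Prime) (h3 : v₂.Prime)
    (h : v₁ ≠ w₁) (he : w₁ * v₂ = w₂ * v₁) : v₁ = v₂ ∧ w₁ = w₂ := by
  have h5 : v₁ ∣ w₁ * v₂ := ⟨w₂, by rw [he]; ring⟩
  rcases (Nat.Prime.dvd_mul h1).1 h5 with h6 | h6
  · exact absurd ((Nat.prime_dvd_prime_iff_eq h1 h2).1 h6) h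
  · have h7 := (Nat.prime_dvd_prime_iff_eq h1 h3).1 h6
    refine ⟨h7, ?_⟩
    rw [h7] at he
    exact Nat.eq_of_mul_eq_mul_right h3.pos he

/-- **KZ-PAIR** -/
theorem t_PAIR : S_PAIR := by
  classical
  intro D hD
  refine ⟨8 * (16 * D + 1) + 1024 * D + 1, by positivity, ?_⟩
  intro δ i M K hM
  obtain ⟨h, hh0⟩ : ∃ h : ℝ, h = (hh δ i : ℝ) := ⟨_, rfl⟩
  have hpos : 0 < h := by rw [hh0]; exact hh_pos δ i
  have hM0 : (0 : ℝ) < M := by exact_mod_cast hM
  have h2i : (0 : ℝ) < 2 ^ i := by positivity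
  rw [← hh0]
  obtain ⟨T, hT⟩ : ∃ T : Finset ((ℕ × ℕ) × (ℕ × ℕ)), T = ((K ×ˢ PrM M) ×ˢ (K ×ˢ PrM M)).filter
      (fun u => |lA δ i u.1.1 / u.1.2 - lA δ i u.2.1 / u.2.2| ≤ D * h / M) := ⟨_, rfl⟩
  have hmem : ∀ u ∈ T, (u.1.1 ∈ K ∧ u.1.2 ∈ PrM M) ∧ (u.2.1 ∈ K ∧ u.2.2 ∈ PrM M) ∧
      |lA δ i u.1.1 / u.1.2 - lA δ i u.2.1 / u.2.2| ≤ D * h / M := by
    intro u hu
    rw [hT] at hu
    obtain ⟨h1, h2⟩ := Finset.mem_filter.1 hu
    obtain ⟨h3, h4⟩ := Finset.mem_product.1 h1
    exact ⟨Finset.mem_product.1 h3, Finset.mem_product.1 h4, h2⟩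
  have hgoal : (T.card : ℝ) ≤ (8 * (16 * D + 1) + 1024 * D + 1) *
      ((K.card : ℝ) * M + (K.card : ℝ) ^ 2 * (1 + (M : ℝ) ^ 2 * h / 2 ^ i)) := by
    have hsplit : (T.card : ℝ) = ((T.filter fun u => u.1.2 = u.2.2).card : ℝ) +
        ((T.filter fun u => ¬ u.1.2 = u.2.2).card : ℝ) := by
      exact_mod_cast (Finset.card_filter_add_card_filter_not (s := T) (fun u => u.1.2 = u.2.2)).symm
    -- equal primes
    have hA : ((T.filter fun u => u.1.2 = u.2.2).card : ℝ) ≤ ((K ×ˢ PrM M).card : ℝ) * (16 * D + 1) := by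
      refine card_le_mul_real _ (K ×ˢ PrM M) (fun u => u.1) ?_ _ ?_
      · intro u hu
        have h1 := hmem u (Finset.mem_filter.1 hu).1
        exact Finset.mem_product.2 h1.1
      · rintro ⟨k, v⟩ hkv
        have hv := (Finset.mem_product.1 hkv).2
        obtain ⟨hv1, hv2, hv3⟩ := mem_PrM.1 hv
        have hv0 : (0 : ℝ) < v := by exact_mod_cast hv2.pos
        have hv8 : (v : ℝ) ≤ 8 * M := by exact_mod_cast hv1
        have h1 := card_spread ((T.filter fun u => u.1.2 = u.2.2).filter fun u => u.1 = (k, v))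
          (fun u => (u.2.1 : ℝ)) 1 (k - 8 * D) (16 * D) one_pos (by positivity) ?_ ?_
        · rw [div_one] at h1
          exact h1
        · intro u hu u' hu' hne
          obtain ⟨hu1, hu2⟩ := Finset.mem_filter.1 hu
          obtain ⟨hu1', hu2'⟩ := Finset.mem_filter.1 hu'
          have h3 := (Finset.mem_filter.1 hu1).2
          have h3' := (Finset.mem_filter.1 hu1').2
          have h4 : u.2.1 ≠ u'.2.1 := by
            intro h5
            apply hne
            refine Prod.ext (hu2.trans hu2'.symm) (Prod.ext h5 ?_)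
            rw [← h3, ← h3', hu2, hu2']
          rcases lt_or_gt_of_ne h4 with h5 | h5
          · have h6 : (u.2.1 : ℝ) + 1 ≤ u'.2.1 := by exact_mod_cast h5
            rw [abs_sub_comm]
            exact le_trans (by linarith) (le_abs_self _)
          · have h6 : (u'.2.1 : ℝ) + 1 ≤ u.2.1 := by exact_mod_cast h5
            exact le_trans (by linarith) (le_abs_self _)
        · intro u hu
          obtain ⟨hu1, hu2⟩ := Finset.mem_filter.1 hu
          obtain ⟨hu3, hu4⟩ := Finset.mem_filter.1 hu1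
          have h3 := (hmem u hu3).2.2
          have e1 : u.1.1 = k := congrArg Prod.fst hu2
          have e2 : u.1.2 = v := congrArg Prod.snd hu2
          rw [← hu4, e1, e2] at h3
          unfold lA at h3
          rw [← hh0, ← sub_div, abs_div, abs_of_pos hv0, div_le_iff₀ hv0] at h3
          have h4 : (2 : ℝ) ^ i + k * h - (2 ^ i + u.2.1 * h) = (k - u.2.1) * h := by ring
          rw [h4, abs_mul, abs_of_pos hpos] at h3
          have h5 : D * h / M * v ≤ 8 * D * h := by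
            rw [div_mul_eq_mul_div, div_le_iff₀ hM0]
            nlinarith [mul_pos hD hpos]
          have h6 : |(k : ℝ) - u.2.1| ≤ 8 * D := by
            have h7 : |(k : ℝ) - u.2.1| * h ≤ 8 * D * h := h3.trans h5
            exact le_of_mul_le_mul_right h7 hpos
          obtain ⟨h8, h9⟩ := abs_le.1 h6
          constructor <;> linarith
    -- different primes
    have hB : ((T.filter fun u => ¬ u.1.2 = u.2.2).card : ℝ) ≤
        ((K ×ˢ K).card : ℝ) * (16 * D * h / 2 ^ i / (1 / (64 * (M : ℝ) ^ 2)) + 1) := by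
      refine card_le_mul_real _ (K ×ˢ K) (fun u => (u.1.1, u.2.1)) ?_ _ ?_
      · intro u hu
        have h1 := hmem u (Finset.mem_filter.1 hu).1
        exact Finset.mem_product.2 ⟨h1.1.1, h1.2.1.1⟩
      · rintro ⟨k, k'⟩ _
        refine card_spread _ (fun u => (u.2.2 : ℝ) / u.1.2) (1 / (64 * (M : ℝ) ^ 2))
          (lA δ i k' / lA δ i k - 8 * D * h / 2 ^ i) (16 * D * h / 2 ^ i) (by positivity)
          (by positivity) ?_ ?_
        · intro u hu u' hu' hne
          obtain ⟨hu1, hu2⟩ := Finset.mem_filter.1 hu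
          obtain ⟨hu1', hu2'⟩ := Finset.mem_filter.1 hu'
          obtain ⟨hu3, hu4⟩ := Finset.mem_filter.1 hu1
          obtain ⟨hu3', hu4'⟩ := Finset.mem_filter.1 hu1'
          have h1 := hmem u hu3
          have h1' := hmem u' hu3'
          obtain ⟨a1, a2, _⟩ := mem_PrM.1 h1.1.2
          obtain ⟨b1, b2, _⟩ := mem_PrM.1 h1.2.1.2
          obtain ⟨a1', a2', _⟩ := mem_PrM.1 h1'.1.2
          obtain ⟨b1', b2', _⟩ := mem_PrM.1 h1'.2.1.2
          have hx : u.2.2 * u'.1.2 ≠ u'.2.2 * u.1.2 := by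
            intro he
            obtain ⟨h5, h6⟩ := cross_ne a2 b2 a2' hu4 he
            apply hne
            have h7 : (u.1.1, u.2.1) = (u'.1.1, u'.2.1) := hu2.trans hu2'.symm
            have h7a : u.1.1 = u'.1.1 := (Prod.mk.inj h7).1
            have h7b : u.2.1 = u'.2.1 := (Prod.mk.inj h7).2
            exact Prod.ext (Prod.ext h7a h5) (Prod.ext h7b h6)
          have hp1 : (0 : ℝ) < u.1.2 := by exact_mod_cast a2.pos
          have hp2 : (0 : ℝ) < u'.1.2 := by exact_mod_cast a2'.pos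
          have h8 : (u.2.2 : ℝ) / u.1.2 - u'.2.2 / u'.1.2 =
              ((u.2.2 : ℝ) * u'.1.2 - u'.2.2 * u.1.2) / (u.1.2 * u'.1.2) := by
            field_simp
          have h9 : (1 : ℝ) ≤ |(u.2.2 : ℝ) * u'.1.2 - u'.2.2 * u.1.2| := by
            have h10 : ((u.2.2 : ℤ) * u'.1.2 - u'.2.2 * u.1.2) ≠ 0 := by
              rw [sub_ne_zero]
              exact_mod_cast hx
            have h11 := Int.one_le_abs h10
            exact_mod_cast h11
          show _ ≤ |(u.2.2 : ℝ) / u.1.2 - u'.2.2 / u'.1.2|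
          rw [h8, abs_div, abs_of_pos (mul_pos hp1 hp2)]
          have h12 : (u.1.2 : ℝ) * u'.1.2 ≤ 64 * (M : ℝ) ^ 2 := by
            have c1 : (u.1.2 : ℝ) ≤ 8 * M := by exact_mod_cast a1
            have c2 : (u'.1.2 : ℝ) ≤ 8 * M := by exact_mod_cast a1'
            calc (u.1.2 : ℝ) * u'.1.2 ≤ (8 * M) * (8 * M) :=
                  mul_le_mul c1 c2 hp2.le (by positivity)
              _ = 64 * (M : ℝ) ^ 2 := by ring
          calc 1 / (64 * (M : ℝ) ^ 2) ≤ 1 / ((u.1.2 : ℝ) * u'.1.2) :=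
                one_div_le_one_div_of_le (mul_pos hp1 hp2) h12
            _ ≤ _ := (div_le_div_iff_of_pos_right (mul_pos hp1 hp2)).2 h9
        · intro u hu
          obtain ⟨hu1, hu2⟩ := Finset.mem_filter.1 hu
          obtain ⟨hu3, hu4⟩ := Finset.mem_filter.1 hu1
          have h1 := hmem u hu3
          obtain ⟨a1, a2, _⟩ := mem_PrM.1 h1.1.2
          obtain ⟨b1, b2, _⟩ := mem_PrM.1 h1.2.1.2
          have e1 : u.1.1 = k := congrArg Prod.fst hu2
          have e2 : u.2.1 = k' := congrArg Prod.snd hu2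
          have h3 := h1.2.2
          rw [e1, e2] at h3
          have hp1 : (0 : ℝ) < u.1.2 := by exact_mod_cast a2.pos
          have hp2 : (0 : ℝ) < u.2.2 := by exact_mod_cast b2.pos
          have hl : (0 : ℝ) < lA δ i k := lt_of_lt_of_le h2i (two_pow_le_lA δ i k)
          have h4 : (u.2.2 : ℝ) / u.1.2 - lA δ i k' / lA δ i k =
              (lA δ i k / u.1.2 - lA δ i k' / u.2.2) * (u.2.2 / lA δ i k) := by
            field_simp
          have h5 : |(u.2.2 : ℝ) / u.1.2 - lA δ i k' / lA δ i k| ≤ 8 * D * h / 2 ^ i := by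
            rw [h4, abs_mul, abs_of_pos (div_pos hp2 hl)]
            have h6 : (u.2.2 : ℝ) / lA δ i k ≤ 8 * M / 2 ^ i :=
              div_le_div₀ (by positivity) (by exact_mod_cast b1) h2i (two_pow_le_lA δ i k)
            calc |lA δ i k / u.1.2 - lA δ i k' / u.2.2| * (u.2.2 / lA δ i k)
                ≤ (D * h / M) * (8 * M / 2 ^ i) :=
                  mul_le_mul h3 h6 (div_pos hp2 hl).le (by positivity)
              _ = 8 * D * h / 2 ^ i := by field_simp
          obtain ⟨h8, h9⟩ := abs_le.1 h5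
          have h10 : 16 * D * h / 2 ^ i = 2 * (8 * D * h / 2 ^ i) := by ring
          show lA δ i k' / lA δ i k - 8 * D * h / 2 ^ i ≤ (u.2.2 : ℝ) / u.1.2 ∧
            (u.2.2 : ℝ) / u.1.2 ≤ lA δ i k' / lA δ i k - 8 * D * h / 2 ^ i + 16 * D * h / 2 ^ i
          rw [h10]
          constructor <;> linarith
    rw [Finset.card_product] at hA hB
    push_cast at hA hB
    have hc := card_PrM M
    have hK : (0 : ℝ) ≤ K.card := Nat.cast_nonneg _
    have hA' : ((T.filter fun u => u.1.2 = u.2.2).card : ℝ) ≤ 8 * (16 * D + 1) * (K.card * M) := by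
      refine hA.trans ?_
      calc (K.card : ℝ) * (PrM M).card * (16 * D + 1) ≤ K.card * (8 * M) * (16 * D + 1) :=
            mul_le_mul_of_nonneg_right (mul_le_mul_of_nonneg_left hc hK) (by positivity)
        _ = 8 * (16 * D + 1) * (K.card * M) := by ring
    have hB' : ((T.filter fun u => ¬ u.1.2 = u.2.2).card : ℝ) ≤
        (1024 * D + 1) * ((K.card : ℝ) ^ 2 * (1 + (M : ℝ) ^ 2 * h / 2 ^ i)) := by
      refine hB.trans ?_
      have e3 : 16 * D * h / 2 ^ i / (1 / (64 * (M : ℝ) ^ 2)) + 1 =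
          1024 * D * ((M : ℝ) ^ 2 * h / 2 ^ i) + 1 := by
        field_simp
        ring
      rw [e3]
      have e4 : (0 : ℝ) ≤ (M : ℝ) ^ 2 * h / 2 ^ i := by positivity
      have e5 : 1024 * D * ((M : ℝ) ^ 2 * h / 2 ^ i) + 1 ≤
          (1024 * D + 1) * (1 + (M : ℝ) ^ 2 * h / 2 ^ i) := by nlinarith
      calc (K.card : ℝ) * K.card * (1024 * D * ((M : ℝ) ^ 2 * h / 2 ^ i) + 1)
          ≤ (K.card : ℝ) * K.card * ((1024 * D + 1) * (1 + (M : ℝ) ^ 2 * h / 2 ^ i)) :=
            mul_le_mul_of_nonneg_left e5 (by positivity)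
        _ = _ := by ring
    rw [hsplit]
    have e6 : (0 : ℝ) ≤ (K.card : ℝ) * M := by positivity
    have e7 : (0 : ℝ) ≤ (K.card : ℝ) ^ 2 * (1 + (M : ℝ) ^ 2 * h / 2 ^ i) := by positivity
    nlinarith [mul_nonneg hD.le e6, mul_nonneg hD.le e7]
  rw [hT] at hgoal
  convert hgoal using 3

end Pool.Agent.Q151.KZ
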