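import Pool.Agent.Q18.KZ.S2

/-!
# Project KZ, lemma XS: almost surely the random set consists of primes
-/

set_option autoImplicit false

namespace Pool.Agent.Q151.KZ

open MeasureTheory
open Pool.Agent.Q18.KZ

theorem coord_zero (ρ : ℕ → ℝ) (P : Measure (ℕ → Bool)) (h : IsRand ρ P) (p : ℕ) (hp : ρ p = 0) :
    P {V : ℕ → Bool | V p = true} = 0 := by
  obtain ⟨hP, hi⟩ := h
  have h1 := hi {p} (fun _ b => if b = true then (1 : ℝ) else 0)
  have hm : MeasurableSet {V : ℕ → Bool | V p = true} :=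
    measurableSet_eq_fun (measurable_pi_apply p) measurable_const
  have h2 : ∫ ω : ℕ → Bool, ({V : ℕ → Bool | V p = true} : Set (ℕ → Bool)).indicator (1 : (ℕ → Bool) → ℝ) ω ∂P =
      P.real {V : ℕ → Bool | V p = true} := integral_indicator_one hm
  have h3 : (fun ω : ℕ → Bool => ∏ q ∈ ({p} : Finset ℕ), (if ω q = true then (1 : ℝ) else 0)) =
      fun ω => ({V : ℕ → Bool | V p = true} : Set (ℕ → Bool)).indicator (1 : (ℕ → Bool) → ℝ) ω := by
    funext ω
    by_cases hω : ω p = true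
    · rw [Set.indicator_of_mem (show ω ∈ {V : ℕ → Bool | V p = true} from hω)]
      simp [hω]
    · rw [Set.indicator_of_notMem (show ω ∉ {V : ℕ → Bool | V p = true} from hω)]
      simp [hω]
  have h4 : P.real {V : ℕ → Bool | V p = true} = 0 := by
    rw [← h2, ← h3]
    have h5 : ∫ ω : ℕ → Bool, ∏ q ∈ ({p} : Finset ℕ), (if ω q = true then (1 : ℝ) else 0) ∂P =
        ∏ q ∈ ({p} : Finset ℕ), (ρ q * (if true = true then (1 : ℝ) else 0) +
          (1 - ρ q) * (if false = true then (1 : ℝ) else 0)) := h1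
    rw [h5]
    simp [hp]
  exact (measureReal_eq_zero_iff (measure_ne_top P _)).1 h4

/-- **KZ-XS** -/
theorem t_XS : S_XS := by
  intro j P hP
  have h : {V : ℕ → Bool | ¬ ∀ p : ℕ, V p = true → p.Prime ∧ 2 ^ (j / 10) ≤ p} ⊆
      ⋃ p : ℕ, {V : ℕ → Bool | V p = true ∧ ¬ (p.Prime ∧ 2 ^ (j / 10) ≤ p)} := by
    intro V hV
    have hV' : ¬ ∀ p : ℕ, V p = true → p.Prime ∧ 2 ^ (j / 10) ≤ p := hV
    push Not at hV'
    obtain ⟨p, h1, h2⟩ := hV'
    refine Set.mem_iUnion.2 ⟨p, h1, ?_⟩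
    rintro ⟨h3, h4⟩
    exact absurd h4 (not_le.2 (h2 h3))
  refine measure_mono_null h (measure_iUnion_null fun p => ?_)
  by_cases hp : p.Prime ∧ 2 ^ (j / 10) ≤ p
  · have : {V : ℕ → Bool | V p = true ∧ ¬ (p.Prime ∧ 2 ^ (j / 10) ≤ p)} = ∅ := by
      ext V
      constructor
      · rintro ⟨_, h2⟩
        exact absurd hp h2
      · intro hf
        exact absurd hf (Set.notMem_empty V)
    rw [this]
    exact measure_empty
  · refine measure_mono_null (t := {V : ℕ → Bool | V p = true}) ?_ (coord_zero (rho j) P hP p ?_)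
    · rintro V ⟨h1, _⟩
      exact h1
    · unfold rho
      rw [if_neg hp]

end Pool.Agent.Q151.KZ
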